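import Pool.Agent.E8helper34.OH.Hull

/-!
# Orlov's conjecture: the Hodge structures generated by holomorphic forms

Let `X` and `Y` be smooth projective complex varieties of dimension `n` with equivalent derived
categories.  `KRing`, `RatStr`, `FM`, `RatOp` are the structures of the starting files: the Hodge
theory of a variety with its rational structure, and the rational isometry of the cohomology for the
Mukai pairings given by an equivalence.  `Sect`, `SectionPair` are the structures of the hand-in
`SmallDefectH34`: the restriction of the cohomology to complete intersections of general members of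
base point free linear systems (with monodromy invariant image, by Deligne).

Orlov's conjecture predicts isomorphic rational Hodge structures `H^s (X, ℚ) ≅ H^s (Y, ℚ)`.  The
theorem gives such an isomorphism for the smallest sub-Hodge structures which contain the
holomorphic `s`-forms (`hull`), for every `s`, in the following situation.

`L` and `L'` are rational classes of type `(1, 1)`, either the first Chern classes or corresponding
to each other under `Φ` (as the pull-backs of an ample class of `B`, if the equivalence is linear
over `B`), and `L`, or `-L`, is the pull-back of an ample class under `f : X → B`; `g` is the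
dimension of the general fibre of `f`.  There is no assumption on the special fibres, and `n` is
arbitrary.  The hypothesis is about the holomorphic `s`-forms `x` with `L ^ k x = 0`, where
`s + k + 2 = n` (`killed`).

* If `g ≤ 2`, for instance if `K` or `-K` is semiample of Kodaira dimension at least `n - 2`, then there
  are no such forms, so that the hypothesis holds (with `u = v = 0`).
* If `g = 3` these are the `s`-forms pulled back from (a resolution of) `B`, and `B` is the same for
  `X` and `Y`, so that the hypothesis holds again.

For `s = 2` these are the transcendental parts of `H² (X, ℚ)` and `H² (Y, ℚ)`.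

The proof: the restriction to a section `Z` of dimension `s + 2` maps the `s`-forms modulo `killed`
injectively to the `s`-forms of `Z`, and `Φ` induces a rational Mukai isometry of the sections, so that
`H^s ⊕ H^{s-4} ⊕ ...` of the sections are isomorphic by the starting file.  The isomorphism maps
`s`-forms to `s`-forms, and it lifts to `X` and `Y` because the algebra of endomorphisms of the
rational Hodge structure is von Neumann regular; an idempotent with kernel `ker L ^ k` is used to
add the isomorphism of the forms killed by `L ^ k`.
-/

namespace Pool.Agent.Results.MP_5c0b30_ag.HolomorphicPartsH34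

open Pool.Agent.W539.DI Pool.Agent.R929.DH Pool.Agent.R941.OH Pool.Agent.R941.OH.HStr
  Pool.Agent.E8helper34.OH

/-- **Theorem.** -/
theorem result {n : ℕ} (X Y : KRing n) (r : RatStr X) (t : RatStr Y) (Φ : FM X Y)
    (h1 : RatOp r t (Φ.φ : X.R →ₗ[ℂ] Y.R)) (h2 : RatOp t r (Φ.φ.symm : Y.R →ₗ[ℂ] X.R))
    (L : X.R) (L' : Y.R) (hL : r.IsRat L) (hL' : t.IsRat L')
    (hi : (L = X.c ∧ L' = Y.c) ∨ Intertwines Φ L L')
    (hs : ∀ s k : ℕ, 1 ≤ s → 1 ≤ k → s + k + 2 = n → SectionPair r t L L' k (s + 2) ∧
      IsoOn r t s (killed X L k s) (killed Y L' k s)) :
    ∀ s : ℕ, IsoOn r t s (hull r s (X.H (s, 0))) (hull t s (Y.H (s, 0))) := by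
  have hi' : Intertwines Φ L L' := by
    rcases hi with ⟨rfl, rfl⟩ | h
    · exact intertwines_c Φ
    · exact h
  exact fun s => (forms_all r t Φ h1 h2 hL hL' hi' hs s).hull (form_le X s) (form_le Y s)

end Pool.Agent.Results.MP_5c0b30_ag.HolomorphicPartsH34
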