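import Pool.Agent.E8helper40.OR.Stmt

/-!
# Orlov's conjecture and the motives of low degree
-/

set_option autoImplicit false

open CategoryTheory AlgebraicGeometry

namespace Pool.Agent.Results.MP_5c0b30_ag.LowDegreesH40

open Pool.Agent.H914 Pool.Agent.H914.VarClass Pool.Agent.H914.VarClass.Obj Pool.Agent.W492.BB
  Pool.Agent.W550.Corr Pool.Agent.TH133 Pool.Agent.E8helper40.OR

/-- Let `X` and `Y` be derived equivalent of dimension `n`, and let `X` satisfy the standard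
conjecture of Lefschetz type. The homological motives of `X` and `Y` are isomorphic if and only if
`H^j(X)` and `H^j(Y)` are isomorphic by algebraic correspondences for `1 ≤ j ≤ n - 3`. If moreover
the homologically trivial self-correspondences of degree zero of `X` form a nilpotent ideal, the
same holds for the Chow motives. -/
theorem result {k : Type} [Field k] {𝒱 : VarClass k} (C : TheoryData.{0, 0, 0} 𝒱 ℚ)
    [IsChowProj C] (H : WeilTheoryData.{0, 0, 0} C ℂ) [IsWeilProj H] (T : HodgeData H)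
    (hT : T.IsTheory) (X Y : 𝒱.Obj) (hXY : X.dim = Y.dim) (v : C.A (X.prod Y))
    (w : C.A (Y.prod X)) (hvw : T.MukaiPair X Y v w) (hB : T.LefschetzType X) :
    ((∀ j : ℕ, 1 ≤ j → j + 3 ≤ X.dim → SameIn H X Y j) ↔ HomIso H X Y) ∧
    ∀ N : ℕ, NilpotentOfIndex H X N →
      ((∀ j : ℕ, 1 ≤ j → j + 3 ≤ X.dim → SameIn H X Y j) ↔ ChowIso C X Y) := by
  have hK := hvw.kernel hT (n := X.dim) rfl hXY.symm
  have h1 : (∀ j : ℕ, 1 ≤ j → j + 3 ≤ X.dim → SameIn H X Y j) → HomIso H X Y := by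
    intro h
    obtain ⟨f, g, hf, hg, e1, e2⟩ := hom_iso hK hB h
    exact ⟨f, g, hf, by rwa [← hXY], e1, e2⟩
  have h2 : HomIso H X Y → ∀ j : ℕ, 1 ≤ j → j + 3 ≤ X.dim → SameIn H X Y j := by
    rintro ⟨f, g, hf, hg, h1, h2⟩ j - -
    exact ⟨f, g, hf, hg, fun a _ => h1 a, fun b _ => h2 b⟩
  refine ⟨⟨h1, h2⟩, fun N hN => ⟨fun h => ?_, fun ⟨f, g, hf, hg, e1, e2⟩ => ?_⟩⟩
  · obtain ⟨f, g, hf, hg, e1, e2⟩ := h1 h
    obtain ⟨f', g', hf', hg', e1', e2'⟩ := chow_iso rfl hXY.symm (nil_X hN)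
      (nil_Y hvw.left hvw.right hN) hf (by rwa [hXY]) e1 e2
    exact ⟨f', g', hf', by rwa [← hXY], e1', e2'⟩
  · refine h2 ⟨f, g, hf, hg, fun a => ?_, fun b => ?_⟩
    · show H.act (H.cl g) (H.act (H.cl f) a) = a
      rw [← actH_comp, e1, actH_dg]
    · show H.act (H.cl f) (H.act (H.cl g) b) = b
      rw [← actH_comp, e2, actH_dg]

end Pool.Agent.Results.MP_5c0b30_ag.LowDegreesH40
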