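import Pool.Agent.E8helper34.OH.Small

/-!
# Orlov's conjecture: rational Hodge structures of fibrations of small defect

Let `X` and `Y` be smooth projective complex varieties of dimension `n` with equivalent derived
categories.  `KRing`, `RatStr`, `FM`, `RatOp`, `HodgeIso` are the structures of the starting files:
the Hodge theory of a variety with its rational structure, the rational isometry of the cohomology
for the Mukai pairings given by an equivalence, and isomorphisms of the rational Hodge structures
`H^m`.  Orlov's conjecture predicts `H^m (X, ℚ) ≅ H^m (Y, ℚ)` for all `m`; the starting files prove
this for `n ≤ 3` (for all `m`), and for single `m` if `n ≤ 6`.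

The theorem proves it for all `n` and `m` in the following situation.  `L` and `L'` are rational
classes of type `(1, 1)` of `X` and `Y`, which are

* the first Chern classes (it is proved that an isometry commutes with `c₁`), or
* corresponding to each other under `Φ`, for instance the pull-backs of an ample class of `B`, if
  the equivalence is linear over `B`.

`L ^ k` is injective on the cohomology in degree `n - 2 - k` (`SmallDefect`).  This holds if `L` (or
`-L`) is the class of an ample divisor pulled back by a morphism `f : X → B` whose defect of
semismallness is at most two, for instance if all fibres of `f` have dimension at most two.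

`SectionPair`: the complete intersections `S`, `S'` of `k` general members of (a multiple of) `L`, `L'`.
The image `Z` of the restriction of the cohomology of `X` to `S` has the properties of the cohomology
of a variety of dimension `n - k` (Deligne: it is the monodromy invariant part of the cohomology
of `S`), and `∫_S x = ∫_X a L ^ k x`.

Examples: `X` and `Y` with `K` or `-K` semiample and (anti-)Iitaka morphism of defect at most two;
varieties with relatively equivalent fibrations by curves or surfaces over any base.

The proof: (1) the Serre functor gives `⟨x, y⟩ = (-1) ^ n ⟨y, exp (-c) x⟩` for the Mukai pairing, so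
an isometry commutes with `exp (-c)` and hence with `c`.  (2) The kernel of the restriction to the
section is the kernel of `L ^ k`, so `Φ` induces a rational isometry for the Mukai pairings of the
sections (twisted by the restriction of `c₁`), although nothing is assumed about the derived
categories of `S` and `S'`.  (3) The relations of the starting file for the sections of dimension
`m = n - k` say that `H^{m-2} ⊕ H^{m-6} ⊕ ...` of the sections are isomorphic.  In these degrees the
restriction is injective, and an isomorphism lifts to `X` and `Y`, because the algebra of
endomorphisms of the Hodge structure is semisimple, so von Neumann regular.  (4) By cancellation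
`H^m` of `X` and `Y` are isomorphic for `m ≤ n - 2`, and the relations of the starting file for `X`
and `Y` give the rest.
-/

namespace Pool.Agent.Results.MP_5c0b30_ag.SmallDefectH34

open Pool.Agent.W539.DI Pool.Agent.R929.DH Pool.Agent.R941.OH Pool.Agent.R941.OH.HStr
  Pool.Agent.E8helper34.OH

/-- **Theorem.** -/
theorem result {n : ℕ} (X Y : KRing n) (r : RatStr X) (t : RatStr Y) (Φ : FM X Y)
    (h1 : RatOp r t (Φ.φ : X.R →ₗ[ℂ] Y.R)) (h2 : RatOp t r (Φ.φ.symm : Y.R →ₗ[ℂ] X.R))
    (L : X.R) (L' : Y.R) (hL : r.IsRat L) (hL' : t.IsRat L')
    (hi : (L = X.c ∧ L' = Y.c) ∨ Intertwines Φ L L') (hX : SmallDefect X L)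
    (hY : SmallDefect Y L')
    (hs : ∀ k m : ℕ, 1 ≤ k → 3 ≤ m → m + k = n → SectionPair r t L L' k m) :
    ∀ m : ℕ, HodgeIso r t m := by
  have hi' : Intertwines Φ L L' := by
    rcases hi with ⟨rfl, rfl⟩ | h
    · exact intertwines_c Φ
    · exact h
  exact small r t Φ h1 h2 hL hL' hi' hX hY hs

end Pool.Agent.Results.MP_5c0b30_ag.SmallDefectH34
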