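import Pool.Agent.E8helper34.OM.Fin

/-!
# Orlov's conjecture: motives of varieties with a fibration of small defect

`k`, `C`, `H`, `T`, `MukaiPair`, `LefschetzType` (the standard conjecture `B(X)`) are as in the hand-in
`LowDegreesH40`.  `X` and `Y` are derived equivalent of dimension `n`; Orlov's conjecture says that
their Chow motives are isomorphic.  Let `L` and `L'` be divisor classes of `X` and `Y`, either the
first Chern classes, or compatible with the action of `v` on cohomology (pull-backs of an ample class
of `B`, if the equivalence is linear over `B`).  Assume

* `Small`: `L ^ j` is injective on the cohomology in degree `n - 2 - j`, which is true if `L` or `-L` is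
  the pull-back of an ample class by a morphism whose defect of semismallness is at most two, for
  instance if all its fibres have dimension at most two;
* `Sections`: the complete intersections `S` of `j ≤ n - 3` general members of a multiple of `L` exist,
  and classes `x` with `L ^ j x = 0` are zero on `S` (Bertini; Deligne: the image of the restriction
  is the monodromy invariant part).

If `X` satisfies `B(X)`, then the homological motives of `X` and `Y` are isomorphic; if the
homologically trivial self-correspondences of `X` are nilpotent, as for varieties of abelian type,
then the Chow motives are isomorphic.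

The proof: the algebra `E` of self-correspondences of `X` modulo homological equivalence acts on the
cohomology of `X` and `Y`.  The image `Z` of the restriction to `S` satisfies Poincaré duality and hard
Lefschetz, because of the condition on the kernel.  The elements of `E` which preserve the kernel
of `L ^ j` act on `Z`; these operators include the Lefschetz operator, its inverses, the Künneth
projectors and the adjoints, as `E` is von Neumann regular.  So the inertia argument of the starting
file applies to the sections, and gives by induction that the Künneth projectors of `X` and `Y` in
the degrees `≤ n - 2` are equivalent in `E`.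
-/

set_option autoImplicit false

open CategoryTheory AlgebraicGeometry

namespace Pool.Agent.Results.MP_5c0b30_ag.SmallDefectMotivesH34

open Pool.Agent.H914 Pool.Agent.H914.VarClass Pool.Agent.H914.VarClass.Obj Pool.Agent.W492.BB
  Pool.Agent.W550.Corr Pool.Agent.TH133 Pool.Agent.E8helper40.OR Pool.Agent.E8helper34.OM

/-- **Theorem.** -/
theorem result {k : Type} [Field k] {𝒱 : VarClass k} (C : TheoryData.{0, 0, 0} 𝒱 ℚ)
    [IsChowProj C] (H : WeilTheoryData.{0, 0, 0} C ℂ) [IsWeilProj H] (T : HodgeData H)
    (hT : T.IsTheory) (X Y : 𝒱.Obj) (hXY : Y.dim = X.dim) (v : C.A (X.prod Y))
    (w : C.A (Y.prod X)) (hvw : T.MukaiPair X Y v w) (hB : T.LefschetzType X) (L : C.A X)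
    (L' : C.A Y) (hL : C.Deg 1 L) (hL' : C.Deg 1 L') (hi : Compatible T v L L')
    (h1 : Small T L) (h2 : Small T L') (hs : Sections T L L') :
    HomIso H X Y ∧ ∀ N : ℕ, NilpotentOfIndex H X N → ChowIso C X Y :=
  motives hT hXY hvw hB hL hL' hi h1 h2 hs

end Pool.Agent.Results.MP_5c0b30_ag.SmallDefectMotivesH34
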